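import Pool.Agent.W78.GA.Basic
import Pool.Agent.W591.GM.Equ

/-!
Project GA (helper78), part GA-21: `S_EQU`.
-/

set_option autoImplicit false

namespace Pool.Agent.W591.GA

open Finset
open Pool.Agent.W78.GA

variable {t c : ℤ}

/-- the Gaussian integer with the same coordinates -/
def gi (z : Qd t c) : GaussianInt := ⟨z.re, z.im⟩

lemma gi_inj {z w : Qd t c} (h : gi z = gi w) : z = w := by
  unfold gi at h
  have h1 := congrArg Zsqrtd.re h
  have h2 := congrArg Zsqrtd.im h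
  exact QuadraticAlgebra.ext h1 h2

lemma nm_gi_le (hD : t ^ 2 < 4 * c) (z : Qd t c) :
    ((Pool.Agent.W78.GM.nm (gi z) : ℕ) : ℤ) ≤ 4 * (c + 1) * (nm z : ℤ) := by
  rw [Pool.Agent.W78.GM.nm_cast, nm_cast hD]
  unfold gi
  simp only
  have e1 := four_nm z
  have e2 : 4 * c * (z.re ^ 2 + t * z.re * z.im + c * z.im ^ 2) =
        (2 * c * z.im + t * z.re) ^ 2 + (4 * c - t ^ 2) * z.re ^ 2 := by ring
  nlinarith [sq_nonneg (2 * c * z.im + t * z.re), sq_nonneg z.re, sq_nonneg z.im,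
    sq_nonneg (2 * z.re + t * z.im)]

theorem equ_of (hD : t ^ 2 < 4 * c) : S_EQU t c := by
  classical
  obtain ⟨C, hC, hE⟩ := Pool.Agent.W591.GM.equ
  have hc : 0 < c := by nlinarith [sq_nonneg t]
  have hcR : (0 : ℝ) < c := by exact_mod_cast hc
  set K : ℝ := 4 * (c + 1) with hK
  have hK1 : 1 ≤ K := by rw [hK]; linarith
  refine ⟨C * K, by positivity, fun A => ?_⟩
  obtain ⟨X₀, hX₀⟩ := hE A
  refine ⟨max (Real.exp 1) X₀, ?_⟩
  intro X M x₁ y₁ x₂ y₂ hX hM1 hM2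
  have hXe : Real.exp 1 ≤ X := (le_max_left _ _).trans hX
  have hXX0 : X₀ ≤ X := (le_max_right _ _).trans hX
  have hX1 : 1 ≤ X := by
    have := Real.add_one_le_exp (1 : ℝ)
    linarith
  have hXK : X ≤ K * X := by nlinarith
  have hKX1 : 1 ≤ K * X := hX1.trans hXK
  have hlog : 1 ≤ Real.log (K * X) := by
    rw [Real.le_log_iff_exp_le (by linarith)]
    linarith
  have hlogpow : 1 ≤ Real.log (K * X) ^ A := one_le_pow₀ hlog
  have hM3 : (M : ℝ) ≤ Real.log (K * X) ^ A := by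
    refine hM2.trans ?_
    apply pow_le_pow_left₀ (Real.log_nonneg hX1)
    exact Real.log_le_log (by linarith) hXK
  have h := hX₀ (K * X) (K * X) (K * X) M ⟨x₁, y₁⟩ ⟨x₂, y₂⟩ (hXX0.trans hXK) hKX1 hKX1
    (by rw [pow_two]) (by nlinarith) (by nlinarith) hM1 hM3
  have h2 : ((dedge t c X).filter (fun e => (M : ℤ) ∣ e.1.re - x₁ ∧ (M : ℤ) ∣ e.1.im - y₁ ∧
      (M : ℤ) ∣ e.2.re - x₂ ∧ (M : ℤ) ∣ e.2.im - y₂)).card ≤
      ((Pool.Agent.W78.GM.redge (K * X) (K * X)).filter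
        (fun e => (M : GaussianInt) ∣ e.1 - ⟨x₁, y₁⟩ ∧ (M : GaussianInt) ∣ e.2 - ⟨x₂, y₂⟩)).card := by
    apply Finset.card_le_card_of_injOn (fun e => (gi e.1, gi e.2))
    · intro e he
      rw [mem_coe, mem_filter] at he
      obtain ⟨he1, h1, h2, h3, h4⟩ := he
      unfold dedge at he1
      rw [mem_filter, mem_product, mem_pball hD, mem_pball hD] at he1
      obtain ⟨⟨⟨p1, n1⟩, p2, n2⟩, hdt⟩ := he1
      have key : ∀ z : Qd t c, (nm z : ℝ) ≤ X → prim z → gi z ∈ Pool.Agent.W78.GM.pball (K * X) := by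
        intro z hz hp
        rw [Pool.Agent.W78.GM.mem_pball]
        refine ⟨hp, ?_⟩
        have h5 := nm_gi_le hD z
        have h6 : ((Pool.Agent.W78.GM.nm (gi z) : ℕ) : ℝ) ≤ 4 * (c + 1) * (nm z : ℝ) := by
          exact_mod_cast h5
        refine h6.trans ?_
        rw [hK]
        exact mul_le_mul_of_nonneg_left hz (by positivity)
      have hdv : ∀ (z : Qd t c) (x y : ℤ), (M : ℤ) ∣ z.re - x → (M : ℤ) ∣ z.im - y →
          (M : GaussianInt) ∣ gi z - ⟨x, y⟩ := by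
        intro z x y h5 h6
        have h7 : (((M : ℤ)) : GaussianInt) ∣ gi z - ⟨x, y⟩ := by
          rw [Zsqrtd.intCast_dvd]
          exact ⟨by simpa [gi] using h5, by simpa [gi] using h6⟩
        exact_mod_cast h7
      rw [mem_coe, mem_filter]
      refine ⟨?_, hdv _ _ _ h1 h2, hdv _ _ _ h3 h4⟩
      unfold Pool.Agent.W78.GM.redge
      rw [mem_filter, mem_product]
      exact ⟨⟨key _ n1 p1, key _ n2 p2⟩, hdt⟩
    · rintro ⟨a, b⟩ _ ⟨a', b'⟩ _ hab
      have h1 := Prod.mk.inj hab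
      exact Prod.ext (gi_inj h1.1) (gi_inj h1.2)
  have h3 : (((dedge t c X).filter (fun e => (M : ℤ) ∣ e.1.re - x₁ ∧ (M : ℤ) ∣ e.1.im - y₁ ∧
      (M : ℤ) ∣ e.2.re - x₂ ∧ (M : ℤ) ∣ e.2.im - y₂)).card : ℝ) ≤ C * (K * X) / (M : ℝ) ^ 3 :=
    le_trans (by exact_mod_cast h2) h
  refine h3.trans (le_of_eq ?_)
  ring

end Pool.Agent.W591.GA
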