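import Pool.Agent.W591.GA.Loc

/-!
Project GA (helper78), part GA-21: `S_SQB`.
-/

set_option autoImplicit false

namespace Pool.Agent.W591.GA

open Finset
open Pool.Agent.W78.GA

variable {t c : ℤ}

lemma dich {l : ℕ} (hl : l.Prime) {A B : ℤ} {i s : ℕ} (h : ((l ^ i : ℕ) : ℤ) ∣ A * B)
    (hsi : s + 1 ≤ i) : ((l ^ (i - s) : ℕ) : ℤ) ∣ A ∨ ((l ^ (i - s) : ℕ) : ℤ) ∣ B ∨
      (((l ^ (s + 1) : ℕ) : ℤ) ∣ A ∧ ((l ^ (s + 1) : ℕ) : ℤ) ∣ B) := by
  rw [Int.natCast_dvd, Int.natAbs_mul] at h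
  obtain ⟨d₁, d₂, h1, h2, h3⟩ := (Nat.dvd_mul).1 h
  have e1 : d₁ ∣ l ^ i := ⟨d₂, h3.symm⟩
  have e2 : d₂ ∣ l ^ i := ⟨d₁, by rw [mul_comm]; exact h3.symm⟩
  obtain ⟨a, ha, rfl⟩ := (Nat.dvd_prime_pow hl).1 e1
  obtain ⟨b, hb, rfl⟩ := (Nat.dvd_prime_pow hl).1 e2
  rw [← pow_add] at h3
  have h4 : a + b = i := Nat.pow_right_injective hl.two_le h3
  rw [Int.natCast_dvd, Int.natCast_dvd, Int.natCast_dvd, Int.natCast_dvd]
  by_cases ha2 : i - s ≤ a
  · exact Or.inl ((pow_dvd_pow l ha2).trans h1)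
  · by_cases hb2 : i - s ≤ b
    · exact Or.inr (Or.inl ((pow_dvd_pow l hb2).trans h2))
    · right; right
      exact ⟨(pow_dvd_pow l (by omega)).trans h1, (pow_dvd_pow l (by omega)).trans h2⟩

/-- the ideal of a primitive vector with norm divisible by `l^i` -/
lemma exists_root (hD : t ^ 2 < 4 * c) {l i : ℕ} (hl : l.Prime) (hi : 1 ≤ i) {v : Qd t c}
    (hv : prim v) (h : l ^ i ∣ nm v) : ∃ r : ℤ, lat (l ^ i) r v ∧
      ((l ^ i : ℕ) : ℤ) ∣ r ^ 2 - t * r + c := by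
  have h1 : ((l ^ i : ℕ) : ℤ) ∣ v.re ^ 2 + t * v.re * v.im + c * v.im ^ 2 := by
    rw [← nm_cast hD]
    exact_mod_cast h
  have hpl := Nat.prime_iff_prime_int.1 hl
  have h2 : ¬ (l : ℤ) ∣ v.im := by
    intro h3
    have h4 : (l : ℤ) ∣ ((l ^ i : ℕ) : ℤ) := by
      exact_mod_cast dvd_pow_self l (by omega : i ≠ 0)
    have h5 : (l : ℤ) ∣ v.re ^ 2 := by
      have h6 := h4.trans h1
      have h7 : (l : ℤ) ∣ v.im * (t * v.re + c * v.im) := h3.mul_right _
      have h8 := dvd_sub h6 h7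
      have e : v.re ^ 2 + t * v.re * v.im + c * v.im ^ 2 - v.im * (t * v.re + c * v.im) =
        v.re ^ 2 := by ring
      rwa [e] at h8
    have h6 := hpl.dvd_of_dvd_pow h5
    have h7 : (l : ℤ) ∣ (Int.gcd v.re v.im : ℤ) := Int.dvd_coe_gcd h6 h3
    unfold prim at hv
    rw [hv] at h7
    have : l ∣ 1 := by exact_mod_cast h7
    exact hl.one_lt.ne' (Nat.dvd_one.1 this)
  have hcop : IsCoprime (((l ^ i : ℕ)) : ℤ) v.im := by
    push_cast
    exact IsCoprime.pow_left (hpl.coprime_iff_not_dvd.2 h2)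
  obtain ⟨a, b, hab⟩ := hcop
  refine ⟨-(v.re * b), ?_, ?_⟩
  · unfold lat
    refine ⟨v.re * a, ?_⟩
    linear_combination (-v.re) * hab
  · have h3 : ((l ^ i : ℕ) : ℤ) ∣ v.re + (-(v.re * b)) * v.im :=
      ⟨v.re * a, by linear_combination (-v.re) * hab⟩
    set r := -(v.re * b) with hr
    have e : v.re ^ 2 + t * v.re * v.im + c * v.im ^ 2 =
        (v.re + r * v.im) * (v.re + (t - r) * v.im) + v.im ^ 2 * (r ^ 2 - t * r + c) := by ring
    rw [e] at h1
    have h4 := (dvd_add_right (h3.mul_right _)).1 h1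
    exact (IsCoprime.pow_right (⟨a, b, hab⟩ : IsCoprime (((l ^ i : ℕ)) : ℤ) v.im)).dvd_of_dvd_mul_left
      h4

open scoped Classical in
/-- the primitive vectors with norm divisible by a high power of `l` -/
lemma card_pow (hD : t ^ 2 < 4 * c) {C : ℝ}
    (hC : ∀ (d : ℕ) (r : ℤ), 1 ≤ d → (d : ℤ) ∣ r ^ 2 - t * r + c →
      ∀ X : ℝ, 1 ≤ X → (((ball t c X).filter (lat d r)).card : ℝ) ≤ C * X / d)
    (hC0 : 0 < C) {l i s : ℕ} (hl : l.Prime) (hsi : s + 1 ≤ i)
    (hs : ¬ ((l ^ (s + 1) : ℕ) : ℤ) ∣ t ^ 2 - 4 * c) {X : ℝ} (hX : 1 ≤ X) :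
    (((pball t c X).filter (fun v => l ^ i ∣ nm v)).card : ℝ) ≤
      2 * (C * X / ((l ^ (i - s) : ℕ) : ℝ)) := by
  rcases ((pball t c X).filter (fun v => l ^ i ∣ nm v)).eq_empty_or_nonempty with h0 | ⟨v₀, h0⟩
  · rw [h0, card_empty]
    have := hl.pos
    push_cast
    positivity
  · rw [mem_filter, mem_pball hD] at h0
    obtain ⟨r₀, hr1, hr2⟩ := exists_root hD hl (by omega) h0.1.1 h0.2
    have hdvd : ((l ^ (i - s) : ℕ) : ℤ) ∣ ((l ^ i : ℕ) : ℤ) := by
      exact_mod_cast pow_dvd_pow l (by omega : i - s ≤ i)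
    have hdvd2 : ((l ^ (s + 1) : ℕ) : ℤ) ∣ ((l ^ i : ℕ) : ℤ) := by
      exact_mod_cast pow_dvd_pow l (by omega : s + 1 ≤ i)
    have hsub : (pball t c X).filter (fun v => l ^ i ∣ nm v) ⊆
        (ball t c X).filter (lat (l ^ (i - s)) r₀) ∪
          (ball t c X).filter (lat (l ^ (i - s)) (t - r₀)) := by
      intro v hv
      rw [mem_filter, mem_pball hD] at hv
      obtain ⟨⟨hv1, hv2⟩, hv3⟩ := hv
      obtain ⟨r, h1, h2⟩ := exists_root hD hl (by omega) hv1 hv3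
      have hvb : v ∈ ball t c X := (mem_ball hD).2 ⟨nm_pos hD (prim_ne_zero hv1), hv2⟩
      have h3 : ((l ^ i : ℕ) : ℤ) ∣ (r - r₀) * (r + r₀ - t) := by
        have h4 := dvd_sub h2 hr2
        have e : r ^ 2 - t * r + c - (r₀ ^ 2 - t * r₀ + c) = (r - r₀) * (r + r₀ - t) := by ring
        rwa [e] at h4
      unfold lat at h1
      rw [mem_union, mem_filter, mem_filter]
      rcases dich hl h3 hsi with h4 | h4 | ⟨h4, h5⟩
      · left
        refine ⟨hvb, ?_⟩
        unfold lat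
        have h5 := dvd_sub (hdvd.trans h1) (h4.mul_right v.im)
        have e : v.re + r * v.im - (r - r₀) * v.im = v.re + r₀ * v.im := by ring
        rwa [e] at h5
      · right
        refine ⟨hvb, ?_⟩
        unfold lat
        have h5 := dvd_sub (hdvd.trans h1) (h4.mul_right v.im)
        have e : v.re + r * v.im - (r + r₀ - t) * v.im = v.re + (t - r₀) * v.im := by ring
        rwa [e] at h5
      · exfalso
        apply hs
        have h6 := dvd_sub h5 h4
        have e : r + r₀ - t - (r - r₀) = 2 * r₀ - t := by ring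
        rw [e] at h6
        have h7 := (h6.mul_right (2 * r₀ - t))
        have h8 := (hdvd2.trans hr2).mul_left 4
        have h9 := dvd_sub h7 h8
        have e2 : (2 * r₀ - t) * (2 * r₀ - t) - 4 * (r₀ ^ 2 - t * r₀ + c) = t ^ 2 - 4 * c := by ring
        rwa [e2] at h9
    have hroot2 : (t - r₀) ^ 2 - t * (t - r₀) + c = r₀ ^ 2 - t * r₀ + c := by ring
    have h1 := hC (l ^ (i - s)) r₀ (Nat.one_le_pow _ _ hl.pos) (hdvd.trans hr2) X hX
    have h2 := hC (l ^ (i - s)) (t - r₀) (Nat.one_le_pow _ _ hl.pos)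
      (by rw [hroot2]; exact hdvd.trans hr2) X hX
    have h3 := (card_le_card hsub).trans (card_union_le _ _)
    have h4 : (((pball t c X).filter (fun v => l ^ i ∣ nm v)).card : ℝ) ≤
      (((ball t c X).filter (lat (l ^ (i - s)) r₀)).card : ℝ) +
        (((ball t c X).filter (lat (l ^ (i - s)) (t - r₀))).card : ℝ) := by exact_mod_cast h3
    linarith

lemma tail_all (z : ℕ) (hz : 1 ≤ z) (L : Finset ℕ) (hL : ∀ l ∈ L, z < l) :
    ∑ l ∈ L, 1 / (l : ℝ) ^ 2 ≤ 1 / (z : ℝ) := by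
  classical
  have h1 : L ⊆ Ioc z (z + L.sup id) := by
    intro l hl
    rw [mem_Ioc]
    refine ⟨hL l hl, ?_⟩
    have : l ≤ L.sup id := Finset.le_sup (f := id) hl
    omega
  refine (sum_le_sum_of_subset_of_nonneg h1 (fun _ _ _ => by positivity)).trans ?_
  have h2 := sum_Ioc_inv_sq_le_sub (α := ℝ) (k := z) (n := z + L.sup id) (by omega) (by omega)
  simp only [one_div]
  refine h2.trans ?_
  have : (0 : ℝ) ≤ (((z + L.sup id : ℕ) : ℝ))⁻¹ := by positivity
  linarith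

open scoped Classical in
/-- the pairs with `l^2 ∣ NN e` for a prime `l > z` -/
lemma sq_large (hD : t ^ 2 < 4 * c) (hEQU : S_EQU t c) (hLARGE : S_LARGE t c) :
    ∃ C : ℝ, 0 < C ∧ ∀ z : ℕ, (4 * c - t ^ 2).natAbs ≤ z → ∀ δ : ℝ, 0 < δ → ∃ X₀ : ℝ, ∀ X : ℝ,
      X₀ ≤ X → (((dedge t c X).filter (fun e => ∃ l : ℕ, l.Prime ∧ z < l ∧ l ^ 2 ∣ NN e)).card : ℝ) ≤
        (C / z + δ) * X := by
  obtain ⟨C, hC, hE⟩ := hEQU
  obtain ⟨A, hL⟩ := hLARGE
  refine ⟨6 * C, by positivity, fun z hz δ hδ => ?_⟩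
  have hDn : (4 * c - t ^ 2).natAbs ≠ 0 := by
    rw [ne_eq, Int.natAbs_eq_zero]
    omega
  have hz1 : 1 ≤ z := by omega
  have hzR : (1 : ℝ) ≤ z := by exact_mod_cast hz1
  obtain ⟨X₁, hX₁⟩ := hL δ hδ
  obtain ⟨X₂, hX₂⟩ := hE (2 * A)
  refine ⟨max (Real.exp 1) (max X₁ X₂), fun X hX => ?_⟩
  have hXe : Real.exp 1 ≤ X := (le_max_left _ _).trans hX
  have hXX1 : X₁ ≤ X := ((le_max_left _ _).trans (le_max_right _ _)).trans hX
  have hXX2 : X₂ ≤ X := ((le_max_right _ _).trans (le_max_right _ _)).trans hX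
  have hX1 : 1 ≤ X := by
    have := Real.add_one_le_exp (1 : ℝ)
    linarith
  have hlog : 1 ≤ Real.log X := by
    rw [Real.le_log_iff_exp_le (by linarith)]
    exact hXe
  set N : ℕ := ⌊Real.log X ^ A⌋₊ with hN
  set L : Finset ℕ := (Ioc z N).filter (fun l => l.Prime) with hLdef
  set BL := (dedge t c X).filter (fun e => ∃ l : ℕ, l.Prime ∧ Real.log X ^ A < (l : ℝ) ∧
      l ^ 2 ∣ NN e) with hBL
  set B : ℕ → Finset (Qd t c × Qd t c) := fun l =>
    (dedge t c X).filter (fun e => l ^ 2 ∣ NN e) with hB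
  have hsub : (dedge t c X).filter (fun e => ∃ l : ℕ, l.Prime ∧ z < l ∧ l ^ 2 ∣ NN e) ⊆
      BL ∪ L.biUnion B := by
    intro e he
    rw [mem_filter] at he
    obtain ⟨he1, l, hl, hzl, hle⟩ := he
    rw [mem_union]
    by_cases hlarge : Real.log X ^ A < (l : ℝ)
    · left
      rw [hBL, mem_filter]
      exact ⟨he1, l, hl, hlarge, hle⟩
    · right
      rw [mem_biUnion]
      refine ⟨l, ?_, ?_⟩
      · rw [hLdef, mem_filter, mem_Ioc]
        exact ⟨⟨hzl, Nat.le_floor (not_lt.1 hlarge)⟩, hl⟩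
      · rw [hB, mem_filter]
        exact ⟨he1, hle⟩
  have hcardBL : (BL.card : ℝ) ≤ δ * X := hX₁ X hXX1
  have hcardB : ∀ l ∈ L, ((B l).card : ℝ) ≤ 6 * C * X * (1 / (l : ℝ) ^ 2) := by
    intro l hl
    rw [hLdef, mem_filter, mem_Ioc] at hl
    obtain ⟨⟨hzl, hlN⟩, hlp⟩ := hl
    have hlpos : (0 : ℝ) < l := by exact_mod_cast hlp.pos
    have hlR : (l : ℝ) ≤ Real.log X ^ A :=
      (Nat.cast_le.2 hlN).trans (Nat.floor_le (by positivity))
    have hlD : ¬ (l : ℤ) ∣ t ^ 2 - 4 * c := by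
      intro h
      have h1 : (l : ℤ) ∣ 4 * c - t ^ 2 := by
        have := dvd_neg.2 h
        rwa [neg_sub] at this
      have h2 : l ∣ (4 * c - t ^ 2).natAbs := Int.natCast_dvd.1 h1
      have h3 := Nat.le_of_dvd (Nat.pos_of_ne_zero hDn) h2
      omega
    obtain ⟨β, hβ, f, hf1, hf2⟩ := classes hD hlp hlD
    have h1 := card_le_classes (l := l ^ 2) (k := 6 * l ^ 4) (B l) (dedge t c X)
      (by rw [hB]; exact filter_subset _ _) (fun e => dt e.1 e.2 = 1 ∧ l ^ 2 ∣ NN e) (by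
        intro e he
        rw [hB, mem_filter] at he
        have he2 := he.1
        unfold dedge at he2
        rw [mem_filter] at he2
        exact ⟨he2.2, he.2⟩)
      ⟨β, hβ, f, hf1, fun e e' he he' => hf2 e e' he.1 he'.1 he.2 he'.2⟩
      (C * X / ((l ^ 2 : ℕ) : ℝ) ^ 3) (by positivity) (by
        intro x₁ y₁ x₂ y₂
        refine hX₂ X (l ^ 2) x₁ y₁ x₂ y₂ hXX2 (Nat.one_le_pow _ _ hlp.pos) ?_
        push_cast
        rw [mul_comm 2 A, pow_mul]
        exact pow_le_pow_left₀ hlpos.le hlR 2)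
    refine h1.trans (le_of_eq ?_)
    push_cast
    field_simp
  have hsum : ∑ l ∈ L, 1 / (l : ℝ) ^ 2 ≤ 1 / (z : ℝ) := by
    refine tail_all z hz1 L fun l hl => ?_
    rw [hLdef, mem_filter, mem_Ioc] at hl
    exact hl.1.1
  have hcard := (Finset.card_le_card hsub).trans (card_union_le _ _)
  have hcard2 : (((dedge t c X).filter (fun e => ∃ l : ℕ, l.Prime ∧ z < l ∧ l ^ 2 ∣ NN e)).card : ℝ) ≤
      (BL.card : ℝ) + ((L.biUnion B).card : ℝ) := by exact_mod_cast hcard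
  have hcard3 : ((L.biUnion B).card : ℝ) ≤ ∑ l ∈ L, ((B l).card : ℝ) := by
    exact_mod_cast card_biUnion_le
  refine hcard2.trans ?_
  calc (BL.card : ℝ) + ((L.biUnion B).card : ℝ)
      ≤ δ * X + ∑ l ∈ L, 6 * C * X * (1 / (l : ℝ) ^ 2) :=
        add_le_add hcardBL (hcard3.trans (sum_le_sum hcardB))
    _ = δ * X + 6 * C * X * ∑ l ∈ L, (1 / (l : ℝ) ^ 2) := by rw [mul_sum]
    _ ≤ δ * X + 6 * C * X * (1 / (z : ℝ)) := by
        have : 0 ≤ 6 * C * X := by positivity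
        have := mul_le_mul_of_nonneg_left hsum this
        linarith
    _ = (6 * C / z + δ) * X := by ring

theorem sqb_of (hD : t ^ 2 < 4 * c) : S_EQU t c → S_LARGE t c → S_VE t c → S_LAT t c →
    S_LATI t c → S_SQB t c := by
  classical
  rintro hEQU hLARGE ⟨CV, hCV, hVE⟩ - ⟨CL, hCL, hLATI⟩ δ hδ
  obtain ⟨CS, hCS, hSQ⟩ := sq_large hD hEQU hLARGE
  set D : ℕ := (4 * c - t ^ 2).natAbs with hDdef
  have hD0 : D ≠ 0 := by
    rw [hDdef, ne_eq, Int.natAbs_eq_zero]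
    omega
  obtain ⟨z, hz⟩ := exists_nat_ge (max (D : ℝ) (4 * CS / δ))
  have hzD : D ≤ z := by
    have : (D : ℝ) ≤ z := (le_max_left _ _).trans hz
    exact_mod_cast this
  have hz3 : 4 * CS / δ ≤ z := (le_max_right _ _).trans hz
  have hz1 : 1 ≤ z := by omega
  have hz0 : (0 : ℝ) < z := by exact_mod_cast hz1
  obtain ⟨X₀, hX₀⟩ := hSQ z hzD (δ / 4) (by positivity)
  set κ : ℝ := min 1 (δ / (4 * CV)) with hκ
  have hκ0 : 0 < κ := lt_min one_pos (by positivity)
  have hκ1 : κ ≤ 1 := min_le_left _ _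
  have hκ2 : CV * κ ≤ δ / 4 := by
    have h1 : κ ≤ δ / (4 * CV) := min_le_right _ _
    calc CV * κ ≤ CV * (δ / (4 * CV)) := mul_le_mul_of_nonneg_left h1 hCV.le
      _ = δ / 4 := by field_simp
  set T : ℝ := CV * (((z : ℝ) + 1) * (2 * CL)) / κ with hT
  have hT0 : 0 < T := by positivity
  obtain ⟨j, hj⟩ : ∃ j : ℕ, T / 2 ^ j ≤ δ / 4 := by
    obtain ⟨j, hj⟩ := pow_unbounded_of_one_lt (T / (δ / 4)) (show (1 : ℝ) < 2 by norm_num)
    refine ⟨j, ?_⟩
    rw [div_le_iff₀ (by positivity)]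
    rw [div_lt_iff₀ (by positivity)] at hj
    linarith
  set i : ℕ := D + 1 + j with hi
  set P : Finset ℕ := (range (z + 1)).filter (fun l => l.Prime) with hP
  set V : ℝ → Finset (Qd t c) := fun X => P.biUnion
    (fun l => (pball t c X).filter (fun v => l ^ i ∣ nm v)) with hV
  have hVcard : ∀ X : ℝ, 1 ≤ X → ((V X).card : ℝ) ≤ (z + 1) * (2 * (CL * X / 2 ^ j)) := by
    intro X hX
    have h1 : ((V X).card : ℝ) ≤
        ∑ l ∈ P, (((pball t c X).filter (fun v => l ^ i ∣ nm v)).card : ℝ) := by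
      exact_mod_cast card_biUnion_le
    refine h1.trans ?_
    have h2 : ∀ l ∈ P, (((pball t c X).filter (fun v => l ^ i ∣ nm v)).card : ℝ) ≤
        2 * (CL * X / 2 ^ j) := by
      intro l hl
      rw [hP, mem_filter] at hl
      have hlp := hl.2
      have hs : ¬ ((l ^ (D + 1) : ℕ) : ℤ) ∣ t ^ 2 - 4 * c := by
        intro h
        have h1 : ((l ^ (D + 1) : ℕ) : ℤ) ∣ 4 * c - t ^ 2 := by
          have := dvd_neg.2 h
          rwa [neg_sub] at this
        have h2 := Nat.le_of_dvd (Nat.pos_of_ne_zero hD0) (Int.natCast_dvd.1 h1)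
        have h3 : D + 1 < l ^ (D + 1) := Nat.lt_pow_self hlp.one_lt
        omega
      have h3 := card_pow hD (fun d r hd hr => (hLATI d r hd hr).2.1) hCL hlp
        (i := i) (s := D) (by omega) hs hX
      refine h3.trans ?_
      have h4 : (2 : ℝ) ^ j ≤ ((l ^ (i - D) : ℕ) : ℝ) := by
        push_cast
        have h5 : (2 : ℝ) ≤ l := by exact_mod_cast hlp.two_le
        calc (2 : ℝ) ^ j ≤ 2 ^ (i - D) := pow_le_pow_right₀ (by norm_num) (by omega)
          _ ≤ (l : ℝ) ^ (i - D) := pow_le_pow_left₀ (by norm_num) h5 _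
      have h5 : CL * X / ((l ^ (i - D) : ℕ) : ℝ) ≤ CL * X / 2 ^ j := by
        apply div_le_div_of_nonneg_left (by positivity) (by positivity) h4
      linarith
    refine (sum_le_sum h2).trans ?_
    rw [sum_const, nsmul_eq_mul]
    apply mul_le_mul_of_nonneg_right _ (by positivity)
    have := card_filter_le (range (z + 1)) (fun l => l.Prime)
    rw [card_range] at this
    exact_mod_cast this
  -- the bound for `q`
  set S : ℕ := ∏ l ∈ P, l ^ i with hS
  refine ⟨S, max X₀ 1, fun X hX => ?_⟩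
  have hX1 : 1 ≤ X := (le_max_right _ _).trans hX
  have hX00 : X₀ ≤ X := (le_max_left _ _).trans hX
  have h1 := hX₀ X hX00
  have h2 := hVE κ X (V X) hκ0 hκ1 hX1
  have hcov : (dedge t c X).filter (fun e => ∃ q : ℕ, S < q ∧ q ^ 2 ∣ NN e) ⊆
      (dedge t c X).filter (fun e => ∃ l : ℕ, l.Prime ∧ z < l ∧ l ^ 2 ∣ NN e) ∪
      (dedge t c X).filter (fun e => e.1 ∈ V X ∨ e.2 ∈ V X) := by
    intro e he
    rw [mem_filter] at he
    obtain ⟨he1, q, hq1, hq2⟩ := he
    rw [mem_union, mem_filter, mem_filter]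
    by_contra hcon
    push Not at hcon
    obtain ⟨hc1, hc2⟩ := hcon
    have hc1' := hc1 he1
    have hc2' := hc2 he1
    have he1' := he1
    unfold dedge at he1'
    rw [mem_filter, mem_product, mem_pball hD, mem_pball hD] at he1'
    obtain ⟨⟨⟨hp1, hn1⟩, hp2, hn2⟩, _⟩ := he1'
    have hm1 : nm e.1 ≠ 0 := (nm_pos hD (prim_ne_zero hp1)).ne'
    have hm2 : nm e.2 ≠ 0 := (nm_pos hD (prim_ne_zero hp2)).ne'
    have hm : NN e ≠ 0 := by unfold NN; exact mul_ne_zero hm1 hm2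
    have hq0 : q ≠ 0 := by omega
    have hS0 : S ≠ 0 := by
      rw [hS]
      refine prod_ne_zero_iff.2 fun l hl => ?_
      rw [hP, mem_filter] at hl
      exact pow_ne_zero _ hl.2.ne_zero
    have hqS : q ∣ S := by
      rw [← Nat.factorization_le_iff_dvd hq0 hS0]
      intro l
      by_cases hlp : l.Prime
      swap
      · rw [Nat.factorization_eq_zero_of_not_prime _ hlp]
        exact Nat.zero_le _
      by_cases hlq : l ∣ q
      swap
      · rw [Nat.factorization_eq_zero_of_not_dvd hlq]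
        exact Nat.zero_le _
      have hlz : l ≤ z := by
        by_contra hcon
        exact hc1' l hlp (by omega) ((pow_dvd_pow_of_dvd hlq 2).trans hq2)
      have hlP : l ∈ P := by
        rw [hP, mem_filter, mem_range]
        exact ⟨by omega, hlp⟩
      have h3 : l ^ i ∣ S := by
        rw [hS]
        exact dvd_prod_of_mem _ hlP
      have h4 : i ≤ S.factorization l := (hlp.pow_dvd_iff_le_factorization hS0).1 h3
      refine le_trans ?_ h4
      by_contra hcon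
      have h5 : l ^ i ∣ q := (hlp.pow_dvd_iff_le_factorization hq0).2 (by omega)
      have h6 : l ^ (2 * i) ∣ NN e := by
        have := (pow_dvd_pow_of_dvd h5 2).trans hq2
        rwa [← pow_mul, mul_comm i 2] at this
      have h7 : l ^ i ∣ nm e.1 ∨ l ^ i ∣ nm e.2 := by
        rw [hlp.pow_dvd_iff_le_factorization hm] at h6
        rw [hlp.pow_dvd_iff_le_factorization hm1, hlp.pow_dvd_iff_le_factorization hm2]
        unfold NN at h6
        rw [Nat.factorization_mul hm1 hm2, Finsupp.add_apply] at h6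
        omega
      have key : ∀ v : Qd t c, prim v → (nm v : ℝ) ≤ X → l ^ i ∣ nm v → v ∈ V X := by
        intro v hv hvX hd
        rw [hV, mem_biUnion]
        exact ⟨l, hlP, mem_filter.2 ⟨(mem_pball hD).2 ⟨hv, hvX⟩, hd⟩⟩
      rcases h7 with h7 | h7
      · exact hc2'.1 (key _ hp1 hn1 h7)
      · exact hc2'.2 (key _ hp2 hn2 h7)
    have := Nat.le_of_dvd (Nat.pos_of_ne_zero hS0) hqS
    omega
  have h3 := (card_le_card hcov).trans (card_union_le _ _)
  have h4 : (((dedge t c X).filter (fun e => ∃ q : ℕ, S < q ∧ q ^ 2 ∣ NN e)).card : ℝ) ≤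
      (((dedge t c X).filter (fun e => ∃ l : ℕ, l.Prime ∧ z < l ∧ l ^ 2 ∣ NN e)).card : ℝ) +
      (((dedge t c X).filter (fun e => e.1 ∈ V X ∨ e.2 ∈ V X)).card : ℝ) := by
    exact_mod_cast h3
  have h5 : (CS / z + δ / 4) * X ≤ δ / 2 * X := by
    apply mul_le_mul_of_nonneg_right _ (by linarith)
    have : CS / z ≤ δ / 4 := by
      rw [div_le_iff₀ hz0]
      rw [div_le_iff₀ hδ] at hz3
      linarith
    linarith
  have h6 : CV * (κ * X + (((V X) ∩ pball t c X).card : ℝ) / κ) ≤ δ / 2 * X := by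
    have h7 : ((((V X) ∩ pball t c X).card : ℕ) : ℝ) ≤ ((V X).card : ℝ) := by
      exact_mod_cast card_le_card inter_subset_left
    have h8 := hVcard X hX1
    have h9 : CV * ((((V X) ∩ pball t c X).card : ℝ) / κ) ≤
        CV * ((((z : ℝ) + 1) * (2 * (CL * X / 2 ^ j))) / κ) := by
      apply mul_le_mul_of_nonneg_left _ hCV.le
      apply div_le_div_of_nonneg_right _ hκ0.le
      linarith
    have h10 : CV * ((((z : ℝ) + 1) * (2 * (CL * X / 2 ^ j))) / κ) = T / 2 ^ j * X := by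
      rw [hT]
      field_simp
    rw [h10] at h9
    have h11 : T / 2 ^ j * X ≤ δ / 4 * X := mul_le_mul_of_nonneg_right hj (by linarith)
    have h12 : CV * κ * X ≤ δ / 4 * X := mul_le_mul_of_nonneg_right hκ2 (by linarith)
    rw [mul_add]
    linarith
  linarith

end Pool.Agent.W591.GA
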