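import Pool.Agent.W78.GA.Basic

/-!
Project GA (helper78), part GA-21: local count modulo `l^2`.
-/

set_option autoImplicit false

namespace Pool.Agent.W591.GA

open Finset
open Pool.Agent.W78.GA

variable {t c : ℤ}

/-- the residue class of a pair -/
def rd (N : ℕ) (e : Qd t c × Qd t c) : (ZMod N × ZMod N) × (ZMod N × ZMod N) :=
  (((e.1.re : ZMod N), (e.1.im : ZMod N)), ((e.2.re : ZMod N), (e.2.im : ZMod N)))

lemma rd_dvd {N : ℕ} {e e' : Qd t c × Qd t c} (h : rd N e = rd N e') :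
    (N : ℤ) ∣ e.1.re - e'.1.re ∧ (N : ℤ) ∣ e.1.im - e'.1.im ∧
      (N : ℤ) ∣ e.2.re - e'.2.re ∧ (N : ℤ) ∣ e.2.im - e'.2.im := by
  unfold rd at h
  rw [Prod.mk.injEq, Prod.mk.injEq, Prod.mk.injEq] at h
  obtain ⟨⟨h1, h2⟩, h3, h4⟩ := h
  have key : ∀ a b : ℤ, (a : ZMod N) = b → (N : ℤ) ∣ a - b := by
    intro a b hab
    rw [← ZMod.intCast_zmod_eq_zero_iff_dvd]
    push_cast
    rw [hab, sub_self]
  exact ⟨key _ _ h1, key _ _ h2, key _ _ h3, key _ _ h4⟩

/-- `x + r y` -/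
def ph {n : ℕ} (r : ZMod n) (z : Qd t c) : ZMod n := (z.re : ZMod n) + r * (z.im : ZMod n)

/-- `x + (t - r) y` -/
def ph2 {n : ℕ} (r : ZMod n) (z : Qd t c) : ZMod n :=
  (z.re : ZMod n) + ((t : ZMod n) - r) * (z.im : ZMod n)

lemma nm_ph (hD : t ^ 2 < 4 * c) {n : ℕ} {r : ZMod n} (hr : r ^ 2 - t * r + c = 0) (z : Qd t c) :
    ((nm z : ℕ) : ZMod n) = ph r z * ph2 r z := by
  have h := nm_cast hD z
  have h2 : ((nm z : ℤ) : ZMod n) =
    ((z.re ^ 2 + t * z.re * z.im + c * z.im ^ 2 : ℤ) : ZMod n) := by rw [h]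
  push_cast at h2
  rw [h2]
  unfold ph ph2
  linear_combination (z.im : ZMod n) ^ 2 * hr

lemma dt_ph {n : ℕ} (r : ZMod n) (v w : Qd t c) :
    ph2 r v * ph r w - ph r v * ph2 r w = (2 * r - (t : ZMod n)) * ((dt v w : ℤ) : ZMod n) := by
  unfold ph ph2 dt
  push_cast
  ring

lemma eq_of_ph {n : ℕ} {r : ZMod n} (hu : IsUnit (2 * r - (t : ZMod n))) {z z' : Qd t c}
    (h : ph r z = ph r z') (h' : ph2 r z = ph2 r z') :
    (z.re : ZMod n) = z'.re ∧ (z.im : ZMod n) = z'.im := by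
  unfold ph at h
  unfold ph2 at h'
  have h1 : (2 * r - (t : ZMod n)) * (z.im : ZMod n) = (2 * r - t) * (z'.im : ZMod n) := by
    linear_combination h - h'
  have h2 := hu.mul_left_cancel h1
  refine ⟨?_, h2⟩
  rw [h2] at h
  exact add_right_cancel h

/-! ### the zero divisors modulo `l^2` -/

section
variable {l : ℕ}

lemma exists_of_nonunit (hl : l.Prime) {a : ZMod (l ^ 2)} (h : ¬ IsUnit a) :
    ∃ k : ℕ, k < l ∧ a = (l : ZMod (l ^ 2)) * (k : ZMod (l ^ 2)) := by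
  have : NeZero (l ^ 2) := ⟨pow_ne_zero _ hl.ne_zero⟩
  have h1 : l ∣ a.val := by
    have h2 := h
    rw [← ZMod.natCast_zmod_val a, ZMod.isUnit_natCast_iff_not_dvd_pow hl two_pos, not_not] at h2
    exact h2
  obtain ⟨k, hk⟩ := h1
  refine ⟨k, ?_, ?_⟩
  · have h3 := ZMod.val_lt a
    rw [hk, pow_two] at h3
    exact lt_of_mul_lt_mul_left h3 (Nat.zero_le _)
  · rw [← ZMod.natCast_zmod_val a, hk]
    push_cast
    ring

open scoped Classical in
lemma card_zero_prod (hl : l.Prime) [NeZero (l ^ 2)] :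
    ((univ : Finset (ZMod (l ^ 2) × ZMod (l ^ 2))).filter (fun p => p.1 * p.2 = 0)).card ≤
      3 * l ^ 2 := by
  set N : Finset (ZMod (l ^ 2)) := (range l).image (fun k : ℕ => (l : ZMod (l ^ 2)) * (k : ZMod (l ^ 2))) with hN
  have hNc : N.card ≤ l := by
    refine card_image_le.trans ?_
    rw [card_range]
  have hsub : (univ : Finset (ZMod (l ^ 2) × ZMod (l ^ 2))).filter (fun p => p.1 * p.2 = 0) ⊆
      (({0} : Finset (ZMod (l ^ 2))) ×ˢ univ) ∪ ((univ ×ˢ {0}) ∪ (N ×ˢ N)) := by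
    rintro ⟨a, b⟩ hab
    rw [mem_filter] at hab
    have h0 : a * b = 0 := hab.2
    rw [mem_union, mem_union, mem_product, mem_product, mem_product]
    by_cases ha : IsUnit a
    · right; left
      refine ⟨mem_univ _, ?_⟩
      rw [mem_singleton]
      exact (ha.mul_right_eq_zero).1 h0
    · by_cases hb : IsUnit b
      · left
        refine ⟨?_, mem_univ _⟩
        rw [mem_singleton]
        exact (hb.mul_left_eq_zero).1 h0
      · right; right
        obtain ⟨k, hk, hk2⟩ := exists_of_nonunit hl ha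
        obtain ⟨j, hj, hj2⟩ := exists_of_nonunit hl hb
        refine ⟨?_, ?_⟩
        · rw [hN, mem_image]
          exact ⟨k, mem_range.2 hk, hk2.symm⟩
        · rw [hN, mem_image]
          exact ⟨j, mem_range.2 hj, hj2.symm⟩
  refine (card_le_card hsub).trans ?_
  refine (card_union_le _ _).trans ?_
  have h1 := card_union_le ((univ : Finset (ZMod (l ^ 2))) ×ˢ ({0} : Finset (ZMod (l ^ 2)))) (N ×ˢ N)
  have h2 : (({0} : Finset (ZMod (l ^ 2))) ×ˢ (univ : Finset (ZMod (l ^ 2)))).card = l ^ 2 := by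
    rw [card_product, card_singleton, one_mul, card_univ, ZMod.card]
  have h3 : ((univ : Finset (ZMod (l ^ 2))) ×ˢ ({0} : Finset (ZMod (l ^ 2)))).card = l ^ 2 := by
    rw [card_product, card_singleton, mul_one, card_univ, ZMod.card]
  have h4 : (N ×ˢ N).card ≤ l ^ 2 := by
    rw [card_product]
    exact (Nat.mul_le_mul hNc hNc).trans (le_of_eq (pow_two l).symm)
  omega

lemma isUnit_or (hl : l.Prime) {a b : ZMod (l ^ 2)} (h : IsUnit (a - b)) :
    IsUnit a ∨ IsUnit b := by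
  by_contra hcon
  push Not at hcon
  obtain ⟨k, _, hk⟩ := exists_of_nonunit hl hcon.1
  obtain ⟨j, _, hj⟩ := exists_of_nonunit hl hcon.2
  rw [hk, hj, ← mul_sub] at h
  exact ZMod.prime_natCast_not_isUnit_pow hl two_pos (isUnit_of_mul_isUnit_left h)

/-- the pairs of determinant `1` with `l^2 ∣ NN e` meet at most `6 l^4` classes modulo `l^2` -/
lemma classes (hD : t ^ 2 < 4 * c) (hl : l.Prime) (hlD : ¬ (l : ℤ) ∣ t ^ 2 - 4 * c) :
    ∃ (β : Type) (_ : Fintype β) (f : Qd t c × Qd t c → β), Fintype.card β ≤ 6 * l ^ 4 ∧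
    ∀ e e' : Qd t c × Qd t c, dt e.1 e.2 = 1 → dt e'.1 e'.2 = 1 → l ^ 2 ∣ NN e → l ^ 2 ∣ NN e' →
      f e = f e' → rd (l ^ 2) e = rd (l ^ 2) e' := by
  classical
  have : NeZero (l ^ 2) := ⟨pow_ne_zero _ hl.ne_zero⟩
  by_cases hex : ∃ e : Qd t c × Qd t c, dt e.1 e.2 = 1 ∧ l ^ 2 ∣ NN e
  swap
  · refine ⟨Unit, inferInstance, fun _ => (), ?_, ?_⟩
    · have := hl.pos
      have : 0 < l ^ 4 := by positivity
      simp only [Fintype.card_unit]
      omega
    · intro e e' h1 h2 h3 h4 _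
      exact absurd ⟨e, h1, h3⟩ hex
  obtain ⟨e₀, h01, h02⟩ := hex
  set r : ZMod (l ^ 2) := -((ip e₀.1 e₀.2 : ℤ) : ZMod (l ^ 2)) with hr
  have hroot : r ^ 2 - t * r + c = 0 := by
    have h1 := NN_eq hD h01
    have h2 : ((NN e₀ : ℕ) : ZMod (l ^ 2)) = 0 := (ZMod.natCast_eq_zero_iff _ _).2 h02
    have h3 : (((NN e₀ : ℕ) : ℤ) : ZMod (l ^ 2)) =
      ((ip e₀.1 e₀.2 ^ 2 + t * ip e₀.1 e₀.2 + c : ℤ) : ZMod (l ^ 2)) := by rw [h1]
    push_cast at h3
    rw [h2] at h3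
    rw [hr]
    linear_combination -h3
  have hu : IsUnit (2 * r - (t : ZMod (l ^ 2))) := by
    have h1 : (2 * r - (t : ZMod (l ^ 2))) * (2 * r - t) = ((t ^ 2 - 4 * c : ℤ) : ZMod (l ^ 2)) := by
      push_cast
      linear_combination 4 * hroot
    have h2 : IsUnit ((t ^ 2 - 4 * c : ℤ) : ZMod (l ^ 2)) := by
      rw [ZMod.coe_int_isUnit_iff_isCoprime]
      push_cast
      exact IsCoprime.pow_left ((Nat.prime_iff_prime_int.1 hl).coprime_iff_not_dvd.2 hlD)
    rw [← h1] at h2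
    exact isUnit_of_mul_isUnit_left h2
  set Z := (univ : Finset (ZMod (l ^ 2) × ZMod (l ^ 2))).filter (fun p => p.1 * p.2 = 0) with hZ
  have h00 : ((0, 0) : ZMod (l ^ 2) × ZMod (l ^ 2)) ∈ Z := by
    rw [hZ, mem_filter]
    exact ⟨mem_univ _, by simp⟩
  -- the code
  let mk : ZMod (l ^ 2) × ZMod (l ^ 2) → Z := fun p => if h : p ∈ Z then ⟨p, h⟩ else ⟨(0, 0), h00⟩
  have mk_inj : ∀ p q : ZMod (l ^ 2) × ZMod (l ^ 2), p.1 * p.2 = 0 → q.1 * q.2 = 0 →
      mk p = mk q → p = q := by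
    intro p q hp hq hpq
    have hp' : p ∈ Z := by rw [hZ, mem_filter]; exact ⟨mem_univ _, hp⟩
    have hq' : q ∈ Z := by rw [hZ, mem_filter]; exact ⟨mem_univ _, hq⟩
    simp only [mk, dif_pos hp', dif_pos hq'] at hpq
    exact congrArg Subtype.val hpq
  refine ⟨(Z × ZMod (l ^ 2)) ⊕ (Z × ZMod (l ^ 2)), inferInstance, fun e =>
    if IsUnit (ph2 r e.1 * ph r e.2) then
      Sum.inl (mk (ph r e.1, ph2 r e.2), ph2 r e.1)
    else Sum.inr (mk (ph2 r e.1, ph r e.2), ph r e.1), ?_, ?_⟩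
  · rw [Fintype.card_sum, Fintype.card_prod, ZMod.card, Fintype.card_coe]
    have h1 : Z.card ≤ 3 * l ^ 2 := card_zero_prod hl
    have h2 := Nat.mul_le_mul_right (l ^ 2) h1
    calc Z.card * l ^ 2 + Z.card * l ^ 2 ≤ 3 * l ^ 2 * l ^ 2 + 3 * l ^ 2 * l ^ 2 :=
          Nat.add_le_add h2 h2
      _ = 6 * l ^ 4 := by ring
  · intro e e' h1 h1' h2 h2' hee
    have key : ∀ e : Qd t c × Qd t c, dt e.1 e.2 = 1 → l ^ 2 ∣ NN e →
        (ph2 r e.1 * ph r e.2) - (ph r e.1 * ph2 r e.2) = 2 * r - (t : ZMod (l ^ 2)) ∧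
        (ph2 r e.1 * ph r e.2) * (ph r e.1 * ph2 r e.2) = 0 := by
      intro e h1 h2
      refine ⟨?_, ?_⟩
      · rw [dt_ph, h1]
        push_cast
        ring
      · have h3 : ((NN e : ℕ) : ZMod (l ^ 2)) = 0 := (ZMod.natCast_eq_zero_iff _ _).2 h2
        unfold NN at h3
        push_cast at h3
        rw [nm_ph hD hroot, nm_ph hD hroot] at h3
        linear_combination h3
    obtain ⟨k1, k2⟩ := key e h1 h2
    obtain ⟨k1', k2'⟩ := key e' h1' h2'
    have fin : ph r e.1 = ph r e'.1 → ph2 r e.1 = ph2 r e'.1 →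
        ph r e.2 = ph r e'.2 → ph2 r e.2 = ph2 r e'.2 →
        rd (l ^ 2) e = rd (l ^ 2) e' := by
      intro a1 a2 a3 a4
      obtain ⟨b1, b2⟩ := eq_of_ph hu a1 a2
      obtain ⟨b3, b4⟩ := eq_of_ph hu a3 a4
      unfold rd
      rw [b1, b2, b3, b4]
    by_cases hA : IsUnit (ph2 r e.1 * ph r e.2) <;>
      by_cases hA' : IsUnit (ph2 r e'.1 * ph r e'.2)
    · simp only [if_pos hA, if_pos hA'] at hee
      have hee2 := Prod.mk.inj (Sum.inl_injective hee)
      have z1 : ph r e.1 * ph2 r e.2 = 0 := (hA.mul_right_eq_zero).1 k2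
      have z2 : ph r e'.1 * ph2 r e'.2 = 0 := (hA'.mul_right_eq_zero).1 k2'
      have h3 := Prod.mk.inj (mk_inj _ _ z1 z2 hee2.1)
      rw [z1, sub_zero] at k1
      rw [z2, sub_zero, ← hee2.2] at k1'
      have h4 : IsUnit (ph2 r e.1) := isUnit_of_mul_isUnit_left hA
      have h5 := h4.mul_left_cancel (k1.trans k1'.symm)
      exact fin h3.1 hee2.2 h5 h3.2
    · simp only [if_pos hA, if_neg hA'] at hee
      exact absurd hee Sum.inl_ne_inr
    · simp only [if_neg hA, if_pos hA'] at hee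
      exact absurd hee Sum.inr_ne_inl
    · simp only [if_neg hA, if_neg hA'] at hee
      have hee2 := Prod.mk.inj (Sum.inr_injective hee)
      have hB : IsUnit (ph r e.1 * ph2 r e.2) := by
        rcases isUnit_or hl (k1 ▸ hu) with h | h
        · exact absurd h hA
        · exact h
      have hB' : IsUnit (ph r e'.1 * ph2 r e'.2) := by
        rcases isUnit_or hl (k1' ▸ hu) with h | h
        · exact absurd h hA'
        · exact h
      have z1 : ph2 r e.1 * ph r e.2 = 0 := (hB.mul_left_eq_zero).1 k2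
      have z2 : ph2 r e'.1 * ph r e'.2 = 0 := (hB'.mul_left_eq_zero).1 k2'
      have h3 := Prod.mk.inj (mk_inj _ _ z1 z2 hee2.1)
      rw [z1, zero_sub] at k1
      rw [z2, zero_sub, ← hee2.2] at k1'
      have h4 : IsUnit (ph r e.1) := isUnit_of_mul_isUnit_left hB
      have h5 := h4.mul_left_cancel (neg_injective (k1.trans k1'.symm))
      exact fin hee2.2 h3.1 h3.2 h5

end

/-- counting by classes -/
lemma card_le_classes {l : ℕ} {k : ℕ} (s T : Finset (Qd t c × Qd t c)) (hsT : s ⊆ T)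
    (P : Qd t c × Qd t c → Prop) (hs : ∀ e ∈ s, P e)
    (h : ∃ (β : Type) (_ : Fintype β) (f : Qd t c × Qd t c → β), Fintype.card β ≤ k ∧
      ∀ e e' : Qd t c × Qd t c, P e → P e' → f e = f e' → rd l e = rd l e')
    (B : ℝ) (hB0 : 0 ≤ B)
    (hB : ∀ x₁ y₁ x₂ y₂ : ℤ, (open scoped Classical in
      ((T.filter (fun e => (l : ℤ) ∣ e.1.re - x₁ ∧ (l : ℤ) ∣ e.1.im - y₁ ∧
        (l : ℤ) ∣ e.2.re - x₂ ∧ (l : ℤ) ∣ e.2.im - y₂)).card : ℝ)) ≤ B) :
    (s.card : ℝ) ≤ k * B := by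
  classical
  obtain ⟨β, hβ, f, h1, h2⟩ := h
  have h3 := Finset.card_eq_sum_card_fiberwise (f := f) (s := s) (t := univ)
    (fun _ _ => by simp)
  have h4 : ∀ b ∈ (univ : Finset β), (((s.filter (fun e => f e = b)).card : ℕ) : ℝ) ≤ B := by
    intro b _
    rcases (s.filter (fun e => f e = b)).eq_empty_or_nonempty with h5 | ⟨e₀, h5⟩
    · rw [h5]; simpa using hB0
    · refine le_trans ?_ (hB e₀.1.re e₀.1.im e₀.2.re e₀.2.im)
      have h6 := mem_filter.1 h5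
      have : (s.filter (fun e => f e = b)) ⊆ T.filter (fun e =>
        (l : ℤ) ∣ e.1.re - e₀.1.re ∧ (l : ℤ) ∣ e.1.im - e₀.1.im ∧
        (l : ℤ) ∣ e.2.re - e₀.2.re ∧ (l : ℤ) ∣ e.2.im - e₀.2.im) := by
        intro e he
        rw [mem_filter] at he
        rw [mem_filter]
        exact ⟨hsT he.1, rd_dvd (h2 e e₀ (hs e he.1) (hs e₀ h6.1) (he.2.trans h6.2.symm))⟩
      exact_mod_cast Finset.card_le_card this
  rw [h3]
  push_cast
  refine (Finset.sum_le_sum h4).trans ?_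
  rw [sum_const, nsmul_eq_mul]
  refine mul_le_mul_of_nonneg_right ?_ hB0
  rw [Finset.card_univ]
  exact_mod_cast h1

end Pool.Agent.W591.GA
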